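import Mathlib
import Pool.Agent.Helper234.L1MAP.Main

set_option autoImplicit false

namespace Pool.Agent.Results.MP_e8a68b_an.L1RenormingFailsMAP

open Pool.Agent.Helper234.L1MAP

/-- There is an equivalent norm on `ℓ¹` without the metric approximation property, both for real
and for complex scalars. -/
theorem result : RenormFailsMAP ℝ (lp (fun _ : ℕ => ℝ) 1) ∧
    RenormFailsMAP ℂ (lp (fun _ : ℕ => ℂ) 1) :=
  final

end Pool.Agent.Results.MP_e8a68b_an.L1RenormingFailsMAP
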